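import Mathlib

/-!
# Exclusion of a hole

Regions of local tests are discs on real diameters and annuli about real points.  Among pairwise
disjoint regions at most three meet a hole (a disc on a real diameter `Y` off `J = [t0, tN]` with
`|Y| ≤ dist (Y, J)`).  Everything is written in a metric space `X` with an isometry `φ : ℝ → X`
(`X = ℂ` or `X = ℝ`).
-/

namespace W_be22_h73

variable {X : Type*} [PseudoMetricSpace X]

/-- open disc on the real diameter `(a, b)` -/
def Disc (φ : ℝ → X) (a b : ℝ) : Set X := Metric.ball (φ ((a + b) / 2)) ((b - a) / 2)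

/-- open annulus about the real point `p` -/
def Ann (φ : ℝ → X) (p r R : ℝ) : Set X := {y | r < dist y (φ p) ∧ dist y (φ p) < R}

/-- shapes of the regions, relative to the interval `[t0, tN]` -/
inductive Shape (φ : ℝ → X) (t0 tN : ℝ) : Set X → Prop
  | disc (a b : ℝ) (h1 : a < b) (h2 : b ≤ tN) (h3 : a < t0 → t0 < b) : Shape φ t0 tN (Disc φ a b)
  | ann (p r R : ℝ) (h1 : t0 ≤ p) (h2 : p ≤ tN) (h3 : 0 < r) (h4 : 2 * r ≤ R) :
      Shape φ t0 tN (Ann φ p r R)

variable {φ : ℝ → X}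

theorem mem_disc (hφ : Isometry φ) {a b x : ℝ} (h1 : a < x) (h2 : x < b) : φ x ∈ Disc φ a b := by
  unfold Disc
  rw [Metric.mem_ball, hφ.dist_eq, Real.dist_eq, abs_lt]
  constructor <;> linarith

theorem mem_ann_left (hφ : Isometry φ) {p r R x : ℝ} (h0 : 0 ≤ r) (h1 : p - R < x)
    (h2 : x < p - r) : φ x ∈ Ann φ p r R := by
  unfold Ann
  rw [Set.mem_setOf_eq, hφ.dist_eq, Real.dist_eq, abs_of_neg (by linarith)]
  constructor <;> linarith

/-- a disc which meets the hole on its left reaches `c + r` -/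
theorem disc_meets_left (hφ : Isometry φ) {a b c r : ℝ}
    (h : ¬ Disjoint (Disc φ a b) (Metric.closedBall (φ c) r)) : a < c + r := by
  rw [Set.not_disjoint_iff] at h
  obtain ⟨y, h1, h2⟩ := h
  unfold Disc at h1
  rw [Metric.mem_ball] at h1
  rw [Metric.mem_closedBall] at h2
  have h3 : dist (φ ((a + b) / 2)) (φ c) < (b - a) / 2 + r := by
    calc dist (φ ((a + b) / 2)) (φ c) ≤ dist (φ ((a + b) / 2)) y + dist y (φ c) :=
          dist_triangle _ _ _
      _ < (b - a) / 2 + r := by rw [dist_comm (φ ((a + b) / 2)) y]; linarith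
  rw [hφ.dist_eq, Real.dist_eq, abs_lt] at h3
  linarith

/-- a disc which meets the hole on its right reaches `c - r` -/
theorem disc_meets_right (hφ : Isometry φ) {a b c r : ℝ}
    (h : ¬ Disjoint (Disc φ a b) (Metric.closedBall (φ c) r)) : c - r < b := by
  rw [Set.not_disjoint_iff] at h
  obtain ⟨y, h1, h2⟩ := h
  unfold Disc at h1
  rw [Metric.mem_ball] at h1
  rw [Metric.mem_closedBall] at h2
  have h3 : dist (φ ((a + b) / 2)) (φ c) < (b - a) / 2 + r := by
    calc dist (φ ((a + b) / 2)) (φ c) ≤ dist (φ ((a + b) / 2)) y + dist y (φ c) :=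
          dist_triangle _ _ _
      _ < (b - a) / 2 + r := by rw [dist_comm (φ ((a + b) / 2)) y]; linarith
  rw [hφ.dist_eq, Real.dist_eq, abs_lt] at h3
  linarith

/-- an annulus (about a point right of the hole) which meets the hole -/
theorem ann_meets_left (hφ : Isometry φ) {p r' R' c r : ℝ} (hc : c ≤ p)
    (h : ¬ Disjoint (Ann φ p r' R') (Metric.closedBall (φ c) r)) :
    p - R' < c + r ∧ c - r < p - r' := by
  rw [Set.not_disjoint_iff] at h
  obtain ⟨y, ⟨h1, h1'⟩, h2⟩ := h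
  rw [Metric.mem_closedBall] at h2
  have h3 : dist (φ c) (φ p) < r + R' := by
    calc dist (φ c) (φ p) ≤ dist (φ c) y + dist y (φ p) := dist_triangle _ _ _
      _ < r + R' := by rw [dist_comm (φ c) y]; linarith
  have h4 : r' < r + dist (φ c) (φ p) := by
    calc r' < dist y (φ p) := h1
      _ ≤ dist y (φ c) + dist (φ c) (φ p) := dist_triangle _ _ _
      _ ≤ _ := by linarith
  rw [hφ.dist_eq, Real.dist_eq, abs_sub_comm, abs_of_nonneg (by linarith)] at h3 h4
  constructor <;> linarith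

/-- no three pairwise disjoint annuli about points to the right of a hole meet it -/
theorem no_chain {p1 r1 R1 p2 r2 R2 p3 r3 t0 c r : ℝ} (hr : 0 ≤ r) (ht : c + 3 * r ≤ t0)
    (hp2 : t0 ≤ p2) (h2 : 2 * r2 ≤ R2)
    (m1 : p1 - R1 < c + r) (m3 : c - r < p3 - r3)
    (h32 : p3 - r3 ≤ p2 - R2) (h21 : p2 - r2 ≤ p1 - R1) : False := by
  linarith

/-- The real left part of two disjoint annuli. -/
theorem ann_order (hφ : Isometry φ) {p r R p' r' R' : ℝ} (h0 : 0 < r) (h1 : 2 * r ≤ R)
    (h0' : 0 < r') (h1' : 2 * r' ≤ R') (hd : Disjoint (Ann φ p r R) (Ann φ p' r' R')) :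
    p - r ≤ p' - R' ∨ p' - r' ≤ p - R := by
  by_contra hcon
  push Not at hcon
  obtain ⟨h2, h3⟩ := hcon
  have h4 : max (p - R) (p' - R') < min (p - r) (p' - r') := by
    rw [max_lt_iff, lt_min_iff, lt_min_iff]
    refine ⟨⟨by linarith, h3⟩, h2, by linarith⟩
  obtain ⟨x, hx1, hx2⟩ := exists_between h4
  rw [max_lt_iff] at hx1
  rw [lt_min_iff] at hx2
  exact Set.disjoint_left.1 hd (mem_ann_left hφ h0.le hx1.1 hx2.1)
    (mem_ann_left hφ h0'.le hx1.2 hx2.2)

/-- Pairwise disjoint regions: at most three meet a hole on the left of `[t0, tN]`. -/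
theorem card_meet_left (hφ : Isometry φ) {ι : Type*} [Fintype ι] {t0 tN c r : ℝ}
    (hr : 0 ≤ r) (ht : c + 3 * r ≤ t0) (R : ι → Set X) (hR : ∀ k, Shape φ t0 tN (R k))
    (hd : Pairwise fun i j => Disjoint (R i) (R j)) (S : Finset ι)
    (hS : ∀ k ∈ S, ¬ Disjoint (R k) (Metric.closedBall (φ c) r)) : S.card ≤ 3 := by
  classical
  set A := S.filter (fun k => ∃ a b, a < b ∧ (a < t0 → t0 < b) ∧ R k = Disc φ a b) with hA
  set B := S.filter (fun k => ∃ p r' R', t0 ≤ p ∧ 0 < r' ∧ 2 * r' ≤ R' ∧ R k = Ann φ p r' R') with hB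
  have hAB : S ⊆ A ∪ B := by
    intro k hk
    rw [Finset.mem_union, hA, hB, Finset.mem_filter, Finset.mem_filter]
    have := hR k
    generalize hRk : R k = Z at this
    cases this with
    | disc a b h1 h2 h3 => exact Or.inl ⟨hk, a, b, h1, h3, rfl⟩
    | ann p r R h1 h2 h3 h4 => exact Or.inr ⟨hk, p, r, R, h1, h3, h4, rfl⟩
  have hAc : A.card ≤ 1 := by
    rw [Finset.card_le_one]
    intro x hx y hy
    by_contra hne
    rw [hA, Finset.mem_filter] at hx hy
    obtain ⟨hxS, a, b, h1, h2, h3⟩ := hx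
    obtain ⟨hyS, a', b', h1', h2', h3'⟩ := hy
    have m1 := hS x hxS
    have m2 := hS y hyS
    rw [h3] at m1
    rw [h3'] at m2
    have k1 := disc_meets_left hφ m1
    have k2 := disc_meets_left hφ m2
    have n1 : φ t0 ∈ Disc φ a b := mem_disc hφ (by linarith) (h2 (by linarith))
    have n2 : φ t0 ∈ Disc φ a' b' := mem_disc hφ (by linarith) (h2' (by linarith))
    have : Disjoint (R x) (R y) := hd hne
    rw [h3, h3'] at this
    exact Set.disjoint_left.1 this n1 n2
  have hBc : B.card ≤ 2 := by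
    by_contra hcon
    push Not at hcon
    obtain ⟨x, hx, y, hy, z, hz, hxy, hxz, hyz⟩ := Finset.two_lt_card.1 hcon
    rw [hB, Finset.mem_filter] at hx hy hz
    obtain ⟨hxS, p1, r1, R1, a1, a2, a3, a4⟩ := hx
    obtain ⟨hyS, p2, r2, R2, b1, b2, b3, b4⟩ := hy
    obtain ⟨hzS, p3, r3, R3, c1, c2, c3, c4⟩ := hz
    have mx := hS x hxS
    have my := hS y hyS
    have mz := hS z hzS
    rw [a4] at mx
    rw [b4] at my
    rw [c4] at mz
    obtain ⟨mx1, mx2⟩ := ann_meets_left hφ (by linarith) mx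
    obtain ⟨my1, my2⟩ := ann_meets_left hφ (by linarith) my
    obtain ⟨mz1, mz2⟩ := ann_meets_left hφ (by linarith) mz
    have dxy : Disjoint (R x) (R y) := hd hxy
    have dxz : Disjoint (R x) (R z) := hd hxz
    have dyz : Disjoint (R y) (R z) := hd hyz
    rw [a4, b4] at dxy
    rw [a4, c4] at dxz
    rw [b4, c4] at dyz
    rcases ann_order hφ a2 a3 b2 b3 dxy with e1 | e1 <;>
    rcases ann_order hφ a2 a3 c2 c3 dxz with e2 | e2 <;>
    rcases ann_order hφ b2 b3 c2 c3 dyz with e3 | e3 <;> linarith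
  calc S.card ≤ (A ∪ B).card := Finset.card_le_card hAB
    _ ≤ A.card + B.card := Finset.card_union_le _ _
    _ ≤ 3 := by omega

theorem ann_neg (φ : ℝ → X) (p r R : ℝ) : Ann φ p r R = Ann (fun x => φ (-x)) (-p) r R := by
  unfold Ann
  simp

/-- Pairwise disjoint regions: at most three (in fact two) meet a hole on the right of
`[t0, tN]`. -/
theorem card_meet_right (hφ : Isometry φ) {ι : Type*} [Fintype ι] {t0 tN c r : ℝ}
    (hr : 0 ≤ r) (ht : tN ≤ c - 3 * r) (R : ι → Set X) (hR : ∀ k, Shape φ t0 tN (R k))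
    (hd : Pairwise fun i j => Disjoint (R i) (R j)) (S : Finset ι)
    (hS : ∀ k ∈ S, ¬ Disjoint (R k) (Metric.closedBall (φ c) r)) : S.card ≤ 3 := by
  classical
  have hφ' : Isometry (fun x : ℝ => φ (-x)) := hφ.comp (IsometryEquiv.neg ℝ).isometry
  set B := S.filter (fun k => ∃ p r' R', p ≤ tN ∧ 0 < r' ∧ 2 * r' ≤ R' ∧ R k = Ann φ p r' R') with hB
  have hAB : S ⊆ B := by
    intro k hk
    rw [hB, Finset.mem_filter]
    have := hR k
    generalize hRk : R k = Z at this
    cases this with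
    | disc a b h1 h2 h3 =>
      exfalso
      have m := hS k hk
      rw [hRk] at m
      have := disc_meets_right hφ m
      linarith
    | ann p r R h1 h2 h3 h4 => exact ⟨hk, p, r, R, h2, h3, h4, rfl⟩
  have hBc : B.card ≤ 2 := by
    by_contra hcon
    push Not at hcon
    obtain ⟨x, hx, y, hy, z, hz, hxy, hxz, hyz⟩ := Finset.two_lt_card.1 hcon
    rw [hB, Finset.mem_filter] at hx hy hz
    obtain ⟨hxS, p1, r1, R1, a1, a2, a3, a4⟩ := hx
    obtain ⟨hyS, p2, r2, R2, b1, b2, b3, b4⟩ := hy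
    obtain ⟨hzS, p3, r3, R3, c1, c2, c3, c4⟩ := hz
    rw [ann_neg] at a4 b4 c4
    have hcc : Metric.closedBall (φ c) r = Metric.closedBall ((fun x => φ (-x)) (-c)) r := by simp
    have mx := hS x hxS
    have my := hS y hyS
    have mz := hS z hzS
    rw [a4, hcc] at mx
    rw [b4, hcc] at my
    rw [c4, hcc] at mz
    obtain ⟨mx1, mx2⟩ := ann_meets_left hφ' (by linarith) mx
    obtain ⟨my1, my2⟩ := ann_meets_left hφ' (by linarith) my
    obtain ⟨mz1, mz2⟩ := ann_meets_left hφ' (by linarith) mz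
    have dxy : Disjoint (R x) (R y) := hd hxy
    have dxz : Disjoint (R x) (R z) := hd hxz
    have dyz : Disjoint (R y) (R z) := hd hyz
    rw [a4, b4] at dxy
    rw [a4, c4] at dxz
    rw [b4, c4] at dyz
    rcases ann_order hφ' a2 a3 b2 b3 dxy with e1 | e1 <;>
    rcases ann_order hφ' a2 a3 c2 c3 dxz with e2 | e2 <;>
    rcases ann_order hφ' b2 b3 c2 c3 dyz with e3 | e3 <;> linarith
  have := Finset.card_le_card hAB
  omega

/-- **Exclusion of a hole.** -/
theorem card_meet (hφ : Isometry φ) {ι : Type*} [Fintype ι] {t0 tN c r : ℝ}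
    (hr : 0 ≤ r) (ht : c + 3 * r ≤ t0 ∨ tN ≤ c - 3 * r) (R : ι → Set X)
    (hR : ∀ k, Shape φ t0 tN (R k))
    (hd : Pairwise fun i j => Disjoint (R i) (R j)) (S : Finset ι)
    (hS : ∀ k ∈ S, ¬ Disjoint (R k) (Metric.closedBall (φ c) r)) : S.card ≤ 3 := by
  rcases ht with ht | ht
  · exact card_meet_left hφ hr ht R hR hd S hS
  · exact card_meet_right hφ hr ht R hR hd S hS

end W_be22_h73
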