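import Mathlib

/-!
# The 3142 lemma (log-range lemma)

Four real polynomials of degree at most `D` cannot have the order
`f4 < f3 < f2 < f1` at `c - r` and `f2 < f4 < f1 < f3` at `c + r` for all `r`
in a range `[r1, r2]` with `r2 / r1` larger than `(10 D)^(6 D + 1)`.
-/

namespace W_be22_h73

open Polynomial

/-- A root far from the annulus changes `|x - w|` by a bounded factor between the two points
`c + r` and `c - r`. -/
theorem ratio_bound {b r c : ℝ} {w : ℂ} (hb : 1 < b) (hr : 0 ≤ r)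
    (h : ‖w - c‖ * b ≤ r ∨ r * b ≤ ‖w - c‖) :
    ‖((c + r : ℝ) : ℂ) - w‖ ≤ (b + 1) / (b - 1) * ‖((c - r : ℝ) : ℂ) - w‖ ∧
    ‖((c - r : ℝ) : ℂ) - w‖ ≤ (b + 1) / (b - 1) * ‖((c + r : ℝ) : ℂ) - w‖ := by
  set s := ‖w - c‖ with hs
  have key : ∀ ε : ℝ, |ε| = r →
      ‖((c + ε : ℝ) : ℂ) - w‖ ≤ r + s ∧ r - s ≤ ‖((c + ε : ℝ) : ℂ) - w‖ ∧
        s - r ≤ ‖((c + ε : ℝ) : ℂ) - w‖ := by
    intro ε hε
    have e1 : ((c + ε : ℝ) : ℂ) - w = (ε : ℂ) - (w - c) := by push_cast; ring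
    have e2 : ‖(ε : ℂ)‖ = r := by rw [Complex.norm_real, Real.norm_eq_abs, hε]
    rw [e1]
    refine ⟨?_, ?_, ?_⟩
    · calc ‖(ε : ℂ) - (w - c)‖ ≤ ‖(ε : ℂ)‖ + ‖w - c‖ := norm_sub_le _ _
        _ = r + s := by rw [e2]
    · have := norm_sub_norm_le (ε : ℂ) (w - c)
      rwa [e2] at this
    · have := norm_sub_norm_le (w - c) (ε : ℂ)
      rwa [e2, norm_sub_rev (w - c) (ε : ℂ)] at this
  have hs0 : 0 ≤ s := norm_nonneg _
  obtain ⟨p1, p2, p3⟩ := key r (abs_of_nonneg hr)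
  obtain ⟨m1, m2, m3⟩ := key (-r) (by rw [abs_neg, abs_of_nonneg hr])
  rw [← sub_eq_add_neg] at m1 m2 m3
  have hb1 : 0 < b - 1 := by linarith
  rw [div_mul_eq_mul_div, div_mul_eq_mul_div, le_div_iff₀ hb1, le_div_iff₀ hb1]
  have hb2 : 0 < b + 1 := by linarith
  rcases h with h | h
  · constructor
    · calc ‖((c + r : ℝ) : ℂ) - w‖ * (b - 1) ≤ (r + s) * (b - 1) :=
            mul_le_mul_of_nonneg_right p1 hb1.le
        _ ≤ (b + 1) * (r - s) := by nlinarith
        _ ≤ _ := mul_le_mul_of_nonneg_left m2 hb2.le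
    · calc ‖((c - r : ℝ) : ℂ) - w‖ * (b - 1) ≤ (r + s) * (b - 1) :=
            mul_le_mul_of_nonneg_right m1 hb1.le
        _ ≤ (b + 1) * (r - s) := by nlinarith
        _ ≤ _ := mul_le_mul_of_nonneg_left p2 hb2.le
  · constructor
    · calc ‖((c + r : ℝ) : ℂ) - w‖ * (b - 1) ≤ (r + s) * (b - 1) :=
            mul_le_mul_of_nonneg_right p1 hb1.le
        _ ≤ (b + 1) * (s - r) := by nlinarith
        _ ≤ _ := mul_le_mul_of_nonneg_left m3 hb2.le
    · calc ‖((c - r : ℝ) : ℂ) - w‖ * (b - 1) ≤ (r + s) * (b - 1) :=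
            mul_le_mul_of_nonneg_right m1 hb1.le
        _ ≤ (b + 1) * (s - r) := by nlinarith
        _ ≤ _ := mul_le_mul_of_nonneg_left p3 hb2.le

/-- comparison of the values of a complex polynomial at two points. -/
theorem norm_eval_le {D : ℕ} {p : ℂ[X]} (hp : p.natDegree ≤ D) {q : ℝ} (hq : 1 ≤ q) {x y : ℂ}
    (h : ∀ w ∈ p.roots, ‖x - w‖ ≤ q * ‖y - w‖) : ‖p.eval x‖ ≤ q ^ D * ‖p.eval y‖ := by
  have hs : p.Splits := IsAlgClosed.splits p
  rw [hs.eval_eq_prod_roots x, hs.eval_eq_prod_roots y, norm_mul, norm_mul]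
  have key : ∀ S : Multiset ℂ, (∀ w ∈ S, ‖x - w‖ ≤ q * ‖y - w‖) →
      ‖(S.map (fun a => x - a)).prod‖ ≤ q ^ (Multiset.card S) * ‖(S.map (fun a => y - a)).prod‖ := by
    intro S
    induction S using Multiset.induction_on with
    | empty => intro _; simp
    | cons a S ih =>
      intro hS
      have h1 := ih (fun w hw => hS w (Multiset.mem_cons_of_mem hw))
      have h2 := hS a (Multiset.mem_cons_self a S)
      rw [Multiset.map_cons, Multiset.prod_cons, Multiset.map_cons, Multiset.prod_cons,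
        norm_mul, norm_mul, Multiset.card_cons, pow_succ]
      calc ‖x - a‖ * ‖(S.map (fun a => x - a)).prod‖
          ≤ (q * ‖y - a‖) * (q ^ (Multiset.card S) * ‖(S.map (fun a => y - a)).prod‖) :=
            mul_le_mul h2 h1 (norm_nonneg _) (by positivity)
        _ = q ^ (Multiset.card S) * q * (‖y - a‖ * ‖(S.map (fun a => y - a)).prod‖) := by ring
  have h1 := key p.roots h
  have h2 : q ^ (Multiset.card p.roots) ≤ q ^ D :=
    pow_le_pow_right₀ hq (le_trans (Polynomial.card_roots' p) hp)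
  calc ‖p.leadingCoeff‖ * ‖(p.roots.map (fun a => x - a)).prod‖
      ≤ ‖p.leadingCoeff‖ * (q ^ D * ‖(p.roots.map (fun a => y - a)).prod‖) := by
        refine mul_le_mul_of_nonneg_left (le_trans h1 ?_) (norm_nonneg _)
        exact mul_le_mul_of_nonneg_right h2 (norm_nonneg _)
    _ = q ^ D * (‖p.leadingCoeff‖ * ‖(p.roots.map (fun a => y - a)).prod‖) := by ring

/-- Comparison of `|g|` at `c + r` and `c - r` when no root of `g` lies in the annulus
`r / b < |w - c| < r b`. -/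
theorem eval_ratio {D : ℕ} {g : ℝ[X]} (hg : g.natDegree ≤ D) {b r c : ℝ} (hb : 1 < b)
    (hr : 0 ≤ r)
    (h : ∀ w ∈ (g.map (algebraMap ℝ ℂ)).roots, ‖w - c‖ * b ≤ r ∨ r * b ≤ ‖w - c‖) :
    |g.eval (c + r)| ≤ ((b + 1) / (b - 1)) ^ D * |g.eval (c - r)| ∧
    |g.eval (c - r)| ≤ ((b + 1) / (b - 1)) ^ D * |g.eval (c + r)| := by
  have hq : 1 ≤ (b + 1) / (b - 1) := by
    rw [le_div_iff₀ (by linarith)]; linarith
  have hd : (g.map (algebraMap ℝ ℂ)).natDegree ≤ D := le_trans natDegree_map_le hg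
  have e : ∀ x : ℝ, ‖(g.map (algebraMap ℝ ℂ)).eval ((x : ℝ) : ℂ)‖ = |g.eval x| := by
    intro x
    have : (g.map (algebraMap ℝ ℂ)).eval ((x : ℝ) : ℂ) = ((g.eval x : ℝ) : ℂ) := by
      have := Polynomial.eval_map_apply (f := algebraMap ℝ ℂ) (p := g) x
      simpa using this
    rw [this, Complex.norm_real, Real.norm_eq_abs]
  have h1 := norm_eval_le hd hq (x := ((c + r : ℝ) : ℂ)) (y := ((c - r : ℝ) : ℂ))
    (fun w hw => (ratio_bound hb hr (h w hw)).1)
  have h2 := norm_eval_le hd hq (x := ((c - r : ℝ) : ℂ)) (y := ((c + r : ℝ) : ℂ))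
    (fun w hw => (ratio_bound hb hr (h w hw)).2)
  rw [e, e] at h1 h2
  exact ⟨h1, h2⟩

/-- Pigeonhole: among `m = 0, ..., N` some open annulus `r1 b^(2m) < |w - c| < r1 b^(2m+2)`
contains no point of a set of at most `N` points. -/
theorem exists_free_annulus {N : ℕ} {S : Finset ℂ} (hS : S.card ≤ N) {b r1 : ℝ} {c : ℂ}
    (hb : 1 < b) (hr : 0 < r1) :
    ∃ m : ℕ, m ≤ N ∧ ∀ w ∈ S, ‖w - c‖ ≤ r1 * b ^ (2 * m) ∨ r1 * b ^ (2 * m + 2) ≤ ‖w - c‖ := by
  by_contra hcon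
  push Not at hcon
  choose! f hf1 hf2 hf3 using hcon
  have hcard : S.card < (Finset.range (N + 1)).card := by
    rw [Finset.card_range]; omega
  obtain ⟨x, hx, y, hy, hxy, he⟩ := Finset.exists_ne_map_eq_of_card_lt_of_maps_to hcard
    (f := f) (fun m hm => hf1 m (by simpa [Nat.lt_succ_iff] using hm))
  have key : ∀ x y : ℕ, x ≤ N → y ≤ N → x < y → f x = f y → False := by
    intro x y hx hy hxy he
    have h1 := hf3 x hx
    have h2 := hf2 y hy
    rw [← he] at h2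
    have h3 : r1 * b ^ (2 * x + 2) ≤ r1 * b ^ (2 * y) :=
      mul_le_mul_of_nonneg_left (pow_le_pow_right₀ hb.le (by omega)) hr.le
    linarith
  have hx' : x ≤ N := by simpa [Nat.lt_succ_iff] using hx
  have hy' : y ≤ N := by simpa [Nat.lt_succ_iff] using hy
  rcases lt_or_gt_of_ne hxy with h | h
  · exact key x y hx' hy' h he
  · exact key y x hy' hx' h he.symm

theorem pow_bound {D : ℕ} (hD : 1 ≤ D) :
    ((((10 * D : ℕ) : ℝ) + 1) / (((10 * D : ℕ) : ℝ) - 1)) ^ D * 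
      ((((10 * D : ℕ) : ℝ) + 1) / (((10 * D : ℕ) : ℝ) - 1)) ^ D < 2 := by
  have hD' : (1 : ℝ) ≤ D := by exact_mod_cast hD
  push_cast
  have h9 : (0 : ℝ) < 10 * D - 1 := by linarith
  have e1 : ((10 * D + 1 : ℝ) / (10 * D - 1)) ≤ Real.exp (2 / (10 * D - 1)) := by
    have := Real.add_one_le_exp (2 / (10 * D - 1 : ℝ))
    have e : (10 * D + 1 : ℝ) / (10 * D - 1) = 2 / (10 * D - 1) + 1 := by
      field_simp
      ring
    rw [e]; exact this
  have e2 : ((10 * D + 1 : ℝ) / (10 * D - 1)) ^ D ≤ Real.exp (2 / 9) := by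
    calc ((10 * D + 1 : ℝ) / (10 * D - 1)) ^ D ≤ (Real.exp (2 / (10 * D - 1))) ^ D :=
          pow_le_pow_left₀ (by positivity) e1 D
      _ = Real.exp (D * (2 / (10 * D - 1))) := by rw [← Real.exp_nat_mul]
      _ ≤ Real.exp (2 / 9) := by
          apply Real.exp_le_exp.mpr
          rw [mul_div_assoc', div_le_div_iff₀ h9 (by norm_num)]
          nlinarith
  have e0 : (0 : ℝ) ≤ ((10 * D + 1 : ℝ) / (10 * D - 1)) ^ D := by positivity
  calc _ ≤ Real.exp (2 / 9) * Real.exp (2 / 9) := mul_le_mul e2 e2 e0 (Real.exp_pos _).le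
    _ = Real.exp (4 / 9) := by rw [← Real.exp_add]; norm_num
    _ < 2 := by
      have h1 : Real.exp (4 / 9) < Real.exp (Real.log 2) := by
        apply Real.exp_lt_exp.mpr
        have := Real.log_two_gt_d9
        linarith
      rwa [Real.exp_log (by norm_num)] at h1

/-- **The 3142 lemma.** -/
theorem range_lt {D : ℕ} (hD : 1 ≤ D) {f1 f2 f3 f4 : ℝ[X]}
    (h1 : f1.natDegree ≤ D) (h2 : f2.natDegree ≤ D) (h3 : f3.natDegree ≤ D)
    (h4 : f4.natDegree ≤ D) {c r1 r2 : ℝ} (hr1 : 0 < r1)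
    (hL : ∀ r : ℝ, r1 ≤ r → r ≤ r2 → f4.eval (c - r) < f3.eval (c - r) ∧
      f3.eval (c - r) < f2.eval (c - r) ∧ f2.eval (c - r) < f1.eval (c - r))
    (hR : ∀ r : ℝ, r1 ≤ r → r ≤ r2 → f2.eval (c + r) < f4.eval (c + r) ∧
      f4.eval (c + r) < f1.eval (c + r) ∧ f1.eval (c + r) < f3.eval (c + r)) :
    r2 < r1 * ((10 * D : ℕ) : ℝ) ^ (6 * D + 1) := by
  classical
  by_contra hcon
  push Not at hcon
  set b : ℝ := ((10 * D : ℕ) : ℝ) with hb
  have hD' : (1 : ℝ) ≤ D := by exact_mod_cast hD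
  have hb1 : 1 < b := by rw [hb]; push_cast; linarith
  have hb0 : 0 < b := by linarith
  have deg : ∀ {p q : ℝ[X]}, p.natDegree ≤ D → q.natDegree ≤ D → (p - q).natDegree ≤ D :=
    fun {p q} hp hq => le_trans (natDegree_sub_le p q) (max_le hp hq)
  set R : ℝ[X] → Finset ℂ := fun g => (g.map (algebraMap ℝ ℂ)).roots.toFinset with hRdef
  have Rcard : ∀ {g : ℝ[X]}, g.natDegree ≤ D → (R g).card ≤ D := by
    intro g hg
    calc (R g).card ≤ Multiset.card (g.map (algebraMap ℝ ℂ)).roots := Multiset.toFinset_card_le _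
      _ ≤ (g.map (algebraMap ℝ ℂ)).natDegree := Polynomial.card_roots' _
      _ ≤ g.natDegree := natDegree_map_le
      _ ≤ D := hg
  have hS : (R (f1 - f2) ∪ R (f3 - f4) ∪ R (f1 - f4)).card ≤ 3 * D := by
    have a1 := Finset.card_union_le (R (f1 - f2) ∪ R (f3 - f4)) (R (f1 - f4))
    have a2 := Finset.card_union_le (R (f1 - f2)) (R (f3 - f4))
    have a3 := Rcard (deg h1 h2)
    have a4 := Rcard (deg h3 h4)
    have a5 := Rcard (deg h1 h4)
    omega
  obtain ⟨m, hm, hfree⟩ := exists_free_annulus hS (c := (c : ℂ)) hb1 hr1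
  set r : ℝ := r1 * b ^ (2 * m + 1) with hr
  have hr0 : 0 < r := by positivity
  have hrr1 : r1 ≤ r := by
    have : 1 ≤ b ^ (2 * m + 1) := one_le_pow₀ hb1.le
    nlinarith
  have hrr2 : r ≤ r2 := by
    refine le_trans ?_ hcon
    exact mul_le_mul_of_nonneg_left (pow_le_pow_right₀ hb1.le (by omega)) hr1.le
  have hroot : ∀ g : ℝ[X], (∀ w ∈ R g, w ∈ R (f1 - f2) ∪ R (f3 - f4) ∪ R (f1 - f4)) →
      ∀ w ∈ (g.map (algebraMap ℝ ℂ)).roots, ‖w - c‖ * b ≤ r ∨ r * b ≤ ‖w - c‖ := by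
    intro g hg w hw
    rcases hfree w (hg w (by simpa [hRdef] using hw)) with h | h
    · left
      calc ‖w - c‖ * b ≤ r1 * b ^ (2 * m) * b := mul_le_mul_of_nonneg_right h hb0.le
        _ = r := by rw [hr]; ring
    · right
      calc r * b = r1 * b ^ (2 * m + 2) := by rw [hr]; ring
        _ ≤ _ := h
  set t : ℝ := ((b + 1) / (b - 1)) ^ D with ht
  have htt : t * t < 2 := pow_bound hD
  have ht0 : 0 < t := by
    have : 0 < b - 1 := by linarith
    positivity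
  obtain ⟨l1, l2, l3⟩ := hL r hrr1 hrr2
  obtain ⟨k1, k2, k3⟩ := hR r hrr1 hrr2
  have A := (eval_ratio (deg h1 h2) hb1 hr0.le (hroot (f1 - f2) (by
    intro w hw; simp only [Finset.mem_union]; exact Or.inl (Or.inl hw)))).1
  have B := (eval_ratio (deg h3 h4) hb1 hr0.le (hroot (f3 - f4) (by
    intro w hw; simp only [Finset.mem_union]; exact Or.inl (Or.inr hw)))).1
  have C := (eval_ratio (deg h1 h4) hb1 hr0.le (hroot (f1 - f4) (by
    intro w hw; simp only [Finset.mem_union]; exact Or.inr hw))).2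
  rw [← ht] at A B C
  simp only [Polynomial.eval_sub] at A B C
  rw [abs_of_pos (by linarith), abs_of_pos (by linarith)] at A B C
  -- left gaps
  set x := f1.eval (c - r) - f2.eval (c - r) with hx
  set z := f3.eval (c - r) - f4.eval (c - r) with hz
  set q := f1.eval (c + r) - f4.eval (c + r) with hq
  have hq0 : 0 < q := by rw [hq]; linarith
  have A' : q ≤ t * x := by
    refine le_trans ?_ A
    rw [hq]; linarith
  have B' : q ≤ t * z := by
    refine le_trans ?_ B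
    rw [hq]; linarith
  have C' : x + z < t * q := by
    refine lt_of_lt_of_le ?_ C
    rw [hx, hz]; linarith
  have : 2 * q < t * t * q := by nlinarith
  nlinarith

/-- Logarithmic form of `range_lt`. -/
theorem log_range_le {D : ℕ} (hD : 1 ≤ D) {f1 f2 f3 f4 : ℝ[X]}
    (h1 : f1.natDegree ≤ D) (h2 : f2.natDegree ≤ D) (h3 : f3.natDegree ≤ D)
    (h4 : f4.natDegree ≤ D) {c r1 r2 : ℝ} (hr1 : 0 < r1) (hr2 : 0 < r2)
    (hL : ∀ r : ℝ, r1 ≤ r → r ≤ r2 → f4.eval (c - r) < f3.eval (c - r) ∧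
      f3.eval (c - r) < f2.eval (c - r) ∧ f2.eval (c - r) < f1.eval (c - r))
    (hR : ∀ r : ℝ, r1 ≤ r → r ≤ r2 → f2.eval (c + r) < f4.eval (c + r) ∧
      f4.eval (c + r) < f1.eval (c + r) ∧ f1.eval (c + r) < f3.eval (c + r)) :
    Real.log r2 - Real.log r1 ≤ (6 * D + 1) * Real.log (10 * D) := by
  have h := range_lt hD h1 h2 h3 h4 hr1 hL hR
  have hD' : (1 : ℝ) ≤ D := by exact_mod_cast hD
  have h' := Real.log_lt_log hr2 h
  rw [Real.log_mul hr1.ne' (by positivity), Real.log_pow] at h'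
  push_cast at h'
  linarith

end W_be22_h73
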