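import Pool.Agent.W_be22fd_h77.Items
import Pool.Agent.W_be22fd_h76sel.Use

/-!
# The M item: Moebius family and children give a local test
-/

open Polynomial Real MeasureTheory

namespace Pool.Agent.Be22.Ker

open Pool.Agent.W_be22fd_h78 (Dom)
open Pool.Agent.W_be22fd_h76sel (Item)

/-- What the M item needs from the Moebius family of the disc `|z - e| < ρ` on `[a, b]`. -/
structure MoebAt {Ω : Type} [MeasurableSpace Ω] (P : Measure Ω) (e ρ a b : ℝ) (Z : ℝ × Ω → ℂ)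
    (φ : ℝ → ℂ → ℝ) : Prop where
  fam : Fam P a b Z φ
  low : ∀ x ∈ Set.Icc a b, ∀ y : ℂ, ‖y - e‖ ≤ 21 / 25 * ρ → y ≠ x → 1 / 50 ≤ φ x y
  zero : ∀ x ∈ Set.Icc a b, ∀ y : ℂ, ρ ≤ ‖y - e‖ → φ x y = 0
  bar : ∀ y, ∫ x in a..b, φ x y ≤ (b - a) * 10

theorem item_M_of_moeb {S : Set ℝ[X]} {L : List ℂ[X]} (hnt : S.Nontrivial) (hL : Diffs S L)
    {t : ℕ → ℝ} {K : ℕ} {E g : ℝ} (hg : 0 ≤ g) (hE : E = 1 ∨ (E = 2 ∧ 1000 ≤ g))
    (hch : ∀ k, 1 ≤ k → k < K → ∀ x, t k < x → x < t (k + 1) →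
      ∃ S' ⊆ S, ∃ a b, F S' g a b ∧ t (k - 1) ≤ a ∧ a ≤ b ∧ b ≤ x ∧ Dom E S S' x)
    {k : ℕ} {e ρ x0 x1 : ℝ} (hv : (Item.M k e ρ x0 x1).Valid t K)
    {Ω : Type} [MeasurableSpace Ω] {P : Measure Ω} {Z : ℝ × Ω → ℂ} {φ : ℝ → ℂ → ℝ}
    (hM : MoebAt P e ρ x0 x1 Z φ) :
    LocalTest L (Item.M k e ρ x0 x1).supp (g / 2000) := by
  have hv' := hv
  obtain ⟨hk1, hkK, hρ, htk0, hlt, htk1, -⟩ := hv'
  have hEpos : 0 < E := by rcases hE with h | ⟨h, _⟩ <;> rw [h] <;> norm_num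
  have main := item hM.fam hlt hL hnt (R := (Item.M k e ρ x0 x1).supp) (C := 10) (by norm_num)
    ?_ (E := E) (g := g) (κ := 1 / 50) hEpos (by norm_num) ?_
  · refine main.mono subset_rfl ?_
    rw [le_div_iff₀ (by norm_num)]
    rcases hE with h | ⟨h, h'⟩
    · rw [h, log_one]; nlinarith
    · rw [h]
      have := log_two_lt_d9
      nlinarith
  · intro y
    by_cases hy : y ∈ (Item.M k e ρ x0 x1).supp
    · rw [Set.indicator_of_mem hy]
      refine (hM.bar y).trans ?_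
      simp
    · rw [Set.indicator_of_notMem hy, mul_zero, mul_zero]
      apply le_of_eq
      rw [intervalIntegral.integral_of_le hlt.le]
      refine setIntegral_eq_zero_of_forall_eq_zero fun x hx => ?_
      refine hM.zero x ⟨hx.1.le, hx.2⟩ y ?_
      simp only [Item.supp, Metric.mem_ball, Complex.dist_eq, not_lt] at hy
      exact hy
  · intro x hx
    obtain ⟨S', hSS, a', b', hF, ha', hab', hb', hD⟩ :=
      hch k hk1 hkK x (by linarith [hx.1]) (by linarith [hx.2])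
    refine ⟨S', hSS, a', b', hF, hD, 1, 0, Or.inl (by norm_num), fun y hy _ hyx => ?_⟩
    obtain ⟨-, -, -, hN⟩ := hv.useM hx.1.le hx.2.le
    refine hM.low x ⟨hx.1.le, hx.2.le⟩ y ?_ hyx
    have hy1 : y ∈ Pool.Agent.W_be22fd_h76sel.N (t (k - 1)) x := by
      refine Pool.Agent.W_be22fd_h76sel.N_mono hab' ha' hb' ?_
      rw [Pool.Agent.W_be22fd_h76sel.N]
      rw [Nb, dsc] at hy
      convert hy using 2
      · congr 1; ring
      · ring
    have := hN hy1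
    rwa [Metric.mem_closedBall, Complex.dist_eq] at this

end Pool.Agent.Be22.Ker
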