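import Pool.Agent.W_MP_be22fd_co.Defs
import Pool.Agent.W_MP_be22fd_co.Interp
import Pool.Agent.W_MP_be22fd_co.Heights
import Pool.Agent.W_MP_be22fd_co.Generic
import Pool.Agent.W_MP_be22fd_co.Rigid

/-!
# Realisation of a word (a list of orders in which every pair switches at most once)

`realise`: if every simple arrangement of `n` pseudolines is `d`-stretchable and `2 N ≤ n`, then
every word on `N` wires has polynomials of degree at most `d` which cross in the way
the word prescribes (along every wire).
-/

namespace W_be22_h73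

open Pool.Agent.W_MP_be22fd_co

/-! ## The model arrangement for integer heights -/

section Model

variable {κ : Type} (A : κ → ℕ → ℤ) (K : ℕ) (sl : κ → κ → ℕ)

/-- the model curves with vertical shifts `s` -/
noncomputable def modl (s : κ → ℝ) (i : κ) : ℝ → ℝ :=
  interp (fun k => (A i k : ℝ) + s i) K

variable {A K sl}

lemma modl_cross (hA : ∀ i j, A j 0 < A i 0 → Slot (A i) (A j) K (sl i j))
    (s : κ → ℝ) (hs : ∀ i, s i ∈ Set.Ioo (0 : ℝ) 1) (i j : κ) (h : A j 0 < A i 0) :
    ∃ t : ℝ, (sl i j : ℝ) < t ∧ t < (sl i j : ℝ) + 1 ∧ modl A K s i t = modl A K s j t ∧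
      (∀ x, x < t → modl A K s j x < modl A K s i x) ∧
      (∀ x, t < x → modl A K s i x < modl A K s j x) := by
  obtain ⟨h1, h2, h3⟩ := hA i j h
  obtain ⟨hsi0, hsi1⟩ := hs i
  obtain ⟨hsj0, hsj1⟩ := hs j
  obtain ⟨t, ht0, ht1, hte, htl, htr⟩ := interp_cross
    (fun k => ((A i k : ℝ) + s i) - ((A j k : ℝ) + s j)) K (sl i j) h1
    (fun k hk' => by
      have := h2 k hk'
      have h' : (A j k : ℝ) + 1 ≤ (A i k : ℝ) := by exact_mod_cast this
      show 0 < ((A i k : ℝ) + s i) - ((A j k : ℝ) + s j)
      linarith)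
    (fun k hk' hk'' => by
      have := h3 k hk' hk''
      have h' : (A i k : ℝ) + 1 ≤ (A j k : ℝ) := by exact_mod_cast this
      show ((A i k : ℝ) + s i) - ((A j k : ℝ) + s j) < 0
      linarith)
  rw [← interp_sub] at hte
  refine ⟨t, ht0, ht1, ?_, ?_, ?_⟩
  · simp only [modl]
    linarith
  · intro x hx
    have := htl x hx
    rw [← interp_sub] at this
    simp only [modl]
    linarith
  · intro x hx
    have := htr x hx
    rw [← interp_sub] at this
    simp only [modl]
    linarith

lemma modl_isArrangement (hA : ∀ i j, A j 0 < A i 0 → Slot (A i) (A j) K (sl i j))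
    (hne : ∀ i j, i ≠ j → A i 0 ≠ A j 0)
    (s : κ → ℝ) (hs : ∀ i, s i ∈ Set.Ioo (0 : ℝ) 1) : IsArrangement (modl A K s) := by
  refine ⟨fun i => continuous_interp _ _, fun i j hij => ?_⟩
  rcases lt_or_gt_of_ne (hne i j hij) with h | h
  · obtain ⟨t, -, -, he, hl, hr⟩ := modl_cross hA s hs j i h
    exact ⟨t, he.symm, Or.inl ⟨hl, hr⟩⟩
  · obtain ⟨t, -, -, he, hl, hr⟩ := modl_cross hA s hs i j h
    exact ⟨t, he, Or.inr ⟨hl, hr⟩⟩

lemma exists_modl [Fintype κ] [DecidableEq κ]
    (hA : ∀ i j, A j 0 < A i 0 → Slot (A i) (A j) K (sl i j))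
    (hne : ∀ i j, i ≠ j → A i 0 ≠ A j 0) :
    ∃ s : κ → ℝ, (∀ i, s i ∈ Set.Ioo (0 : ℝ) 1) ∧
    IsArrangement (modl A K s) ∧ IsSimple (modl A K s) := by
  obtain ⟨s, hs, h⟩ := exists_generic
    (fun i : κ => interp (fun k => (A i k : ℝ)) K) (by
    intro s hs i j hij
    obtain ⟨t, -, hcr⟩ := (modl_isArrangement hA hne s hs).cross i j hij
    refine ⟨t, fun y hy => ?_⟩
    have hy' : modl A K s i y = modl A K s j y := by
      simp only [modl, interp_add_const]
      exact hy
    by_contra hne
    rcases lt_or_gt_of_ne hne with hlt | hgt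
    · rcases hcr with hcr | hcr
      · exact absurd hy' (hcr.1 y hlt).ne
      · exact absurd hy' (hcr.1 y hlt).ne'
    · rcases hcr with hcr | hcr
      · exact absurd hy' (hcr.2 y hgt).ne'
      · exact absurd hy' (hcr.2 y hgt).ne)
  refine ⟨s, hs, modl_isArrangement hA hne s hs, ?_⟩
  intro i j k hij hjk hik x hx
  simp only [modl, interp_add_const] at hx
  exact h i j k hij hjk hik x hx

/-- facts about the crossings of the model arrangement -/
lemma modl_facts (hA : ∀ i j, A j 0 < A i 0 → Slot (A i) (A j) K (sl i j))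
    (hne : ∀ i j, i ≠ j → A i 0 ≠ A j 0) (hsymm : ∀ i j, sl i j = sl j i)
    (s : κ → ℝ) (hs : ∀ i, s i ∈ Set.Ioo (0 : ℝ) 1)
    {a : κ → κ → ℝ} {up : κ → κ → Prop} (hc : CrossData (modl A K s) a up) :
    (∀ i j, A j 0 < A i 0 → up i j) ∧
    (∀ i j, i ≠ j → (sl i j : ℝ) < a i j ∧ a i j < (sl i j : ℝ) + 1) := by
  have key : ∀ i j, A j 0 < A i 0 → up i j ∧ ((sl i j : ℝ) < a i j ∧ a i j < (sl i j : ℝ) + 1) := by
    intro i j hij
    have hne : i ≠ j := by
      rintro rfl
      exact lt_irrefl _ hij
    obtain ⟨t, h0, h1, he, hl, hr⟩ := modl_cross hA s hs i j hij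
    have ht : t = a i j := hc.unique hne he
    subst ht
    refine ⟨?_, h0, h1⟩
    rw [hc.up_iff_left hne (x := a i j - 1) (by linarith)]
    exact hl _ (by linarith)
  refine ⟨fun i j h => (key i j h).1, fun i j hij => ?_⟩
  rcases lt_or_gt_of_ne (hne i j hij) with h | h
  · have := (key j i h).2
    rw [hc.symm i j, hsymm i j]
    exact this
  · exact (key i j h).2

end Model

/-! ## Vertical orientation -/

section Orient

variable {ι : Type} {β : Type*} [LinearOrder β] {H : ι → β}
  {g : ι → ℝ → ℝ} {b : ι → ι → ℝ} {up : ι → ι → Prop}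

lemma orient' (hc : CrossData g b up)
    (hT : ∀ p q r, H q < H p → H r < H q →
      (b p q < b p r ∧ b p r < b q r) ∨ (b q r < b p r ∧ b p r < b p q))
    {p q r : ι} (hpq : H q < H p) (hqr : H r < H q) :
    (up p q ↔ up p r) ∧ (up q r ↔ up p r) := by
  have n1 : p ≠ q := by rintro rfl; exact lt_irrefl _ hpq
  have n2 : q ≠ r := by rintro rfl; exact lt_irrefl _ hqr
  have n3 : p ≠ r := by rintro rfl; exact lt_irrefl _ (hpq.trans hqr)
  have e1 := hc.eq p q n1
  have e2 := hc.eq q r n2
  rcases hT p q r hpq hqr with ⟨h1, h2⟩ | ⟨h1, h2⟩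
  · constructor
    · rw [hc.up_iff_right n1 (h1.trans h2), hc.up_iff_right n3 h2, e2]
    · rw [hc.up_iff_left n2 (h1.trans h2), hc.up_iff_left n3 h1, e1]
  · constructor
    · rw [hc.up_iff_left n1 (h1.trans h2), hc.up_iff_left n3 h1, e2]
    · rw [hc.up_iff_right n2 (h1.trans h2), hc.up_iff_right n3 h2, e1]

lemma orient_all [Finite ι] (hinj : Function.Injective H) (hc : CrossData g b up)
    (hT : ∀ p q r, H q < H p → H r < H q →
      (b p q < b p r ∧ b p r < b q r) ∨ (b q r < b p r ∧ b p r < b p q)) :
    (∀ p q, H q < H p → up p q) ∨ (∀ p q, H q < H p → up q p) := by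
  rcases isEmpty_or_nonempty ι with he | hn
  · left; intro p; exact (he.false p).elim
  obtain ⟨t, ht⟩ := Finite.exists_max H
  obtain ⟨u, hu⟩ := Finite.exists_min H
  have h1 : ∀ q, H q < H t → (up t q ↔ up t u) := by
    intro q hq
    rcases eq_or_ne q u with rfl | hne
    · exact Iff.rfl
    · have : H u < H q := lt_of_le_of_ne (hu q) (fun h => hne (hinj h.symm))
      exact (orient' hc hT hq this).1
  have h2 : ∀ p q, H q < H p → (up p q ↔ up t u) := by
    intro p q hpq
    rcases eq_or_ne p t with rfl | hne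
    · exact h1 q hpq
    · have h3 : H p < H t := lt_of_le_of_ne (ht p) (fun h => hne (hinj h))
      rw [(orient' hc hT h3 hpq).2]
      exact h1 q (hpq.trans h3)
  by_cases h : up t u
  · left
    intro p q hpq
    exact (h2 p q hpq).2 h
  · right
    intro p q hpq
    have hne : p ≠ q := by rintro rfl; exact lt_irrefl _ hpq
    exact (hc.tot p q hne).resolve_left (fun h' => h ((h2 p q hpq).1 h'))

end Orient

/-! ## One uniformly oriented copy -/

/-- The conclusion: polynomials which cross as the word prescribes. -/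
structure Realises {ι : Type} {β : Type*} [LinearOrder β] (H : ι → β) (sl : ι → ι → ℕ) (d : ℕ)
    (P : ι → Polynomial ℝ) (b : ι → ι → ℝ) : Prop where
  deg : ∀ i, (P i).natDegree ≤ d
  symm : ∀ i j, b i j = b j i
  left : ∀ i j, H j < H i → ∀ x, x < b i j → (P j).eval x < (P i).eval x
  right : ∀ i j, H j < H i → ∀ x, b i j < x → (P i).eval x < (P j).eval x
  slot : ∀ i j k, j ≠ i → k ≠ i → sl i j < sl i k → b i j < b i k

namespace Realises

variable {ι : Type} {β : Type*} [LinearOrder β] {H : ι → β} {sl : ι → ι → ℕ} {d : ℕ}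
    {P : ι → Polynomial ℝ} {b : ι → ι → ℝ}

/-- at the crossing the two polynomials agree -/
lemma eq (h : Realises H sl d P b) {i j : ι} (hij : H j < H i) :
    (P i).eval (b i j) = (P j).eval (b i j) := by
  have hc : Continuous fun x : ℝ => (P i).eval x - (P j).eval x :=
    (P i).continuous.sub (P j).continuous
  apply le_antisymm
  · by_contra hcon
    push Not at hcon
    have hopen : IsOpen {x : ℝ | 0 < (P i).eval x - (P j).eval x} := isOpen_lt continuous_const hc
    have hmem : b i j ∈ {x : ℝ | 0 < (P i).eval x - (P j).eval x} := by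
      simp only [Set.mem_setOf_eq]; linarith
    obtain ⟨ε, hε, hb⟩ := Metric.isOpen_iff.1 hopen _ hmem
    have h1 : b i j + ε / 2 ∈ Metric.ball (b i j) ε := by
      rw [Metric.mem_ball, Real.dist_eq]
      rw [show b i j + ε / 2 - b i j = ε / 2 by ring, abs_of_pos (by linarith)]
      linarith
    have h2 := hb h1
    simp only [Set.mem_setOf_eq] at h2
    have h3 := h.right i j hij (b i j + ε / 2) (by linarith)
    linarith
  · by_contra hcon
    push Not at hcon
    have hopen : IsOpen {x : ℝ | (P i).eval x - (P j).eval x < 0} := isOpen_lt hc continuous_const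
    have hmem : b i j ∈ {x : ℝ | (P i).eval x - (P j).eval x < 0} := by
      simp only [Set.mem_setOf_eq]; linarith
    obtain ⟨ε, hε, hb⟩ := Metric.isOpen_iff.1 hopen _ hmem
    have h1 : b i j - ε / 2 ∈ Metric.ball (b i j) ε := by
      rw [Metric.mem_ball, Real.dist_eq]
      rw [show b i j - ε / 2 - b i j = -(ε / 2) by ring, abs_neg, abs_of_pos (by linarith)]
      linarith
    have h2 := hb h1
    simp only [Set.mem_setOf_eq] at h2
    have h3 := h.left i j hij (b i j - ε / 2) (by linarith)
    linarith

/-- `x` is to the left of the crossing of `i` (above at first) and `j` iff `i` is above at `x` -/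
lemma lt_iff (h : Realises H sl d P b) {i j : ι} (hij : H j < H i) {x : ℝ} :
    (P j).eval x < (P i).eval x ↔ x < b i j := by
  constructor
  · intro hx
    by_contra hcon
    push Not at hcon
    rcases hcon.lt_or_eq with h1 | h1
    · exact absurd hx (h.right i j hij x h1).not_gt
    · have := h.eq hij
      rw [h1] at this
      linarith
  · exact h.left i j hij x

/-- `x` is to the right of the crossing of `i` (above at first) and `j` iff `j` is above at `x` -/
lemma gt_iff (h : Realises H sl d P b) {i j : ι} (hij : H j < H i) {x : ℝ} :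
    (P i).eval x < (P j).eval x ↔ b i j < x := by
  constructor
  · intro hx
    by_contra hcon
    push Not at hcon
    rcases hcon.lt_or_eq with h1 | h1
    · exact absurd hx (h.left i j hij x h1).not_gt
    · have := h.eq hij
      rw [← h1] at this
      linarith
  · exact h.right i j hij x

/-- along wire `i`, written with the first argument last -/
lemma slot' (h : Realises H sl d P b) {i j k : ι} (hj : j ≠ i) (hk : k ≠ i)
    (hlt : sl i j < sl i k) : b j i < b k i := by
  rw [h.symm j i, h.symm k i]
  exact h.slot i j k hj hk hlt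

/-- **Sync lemma, past.**  If the crossing of `u, v` precedes the crossing of `u` with `R`, and
`R` crosses `u` before it crosses `S`, then the crossing of `u, v` is before the key time
`b S R`. -/
lemma lt_key (h : Realises H sl d P b) (hsymm : ∀ i j, sl i j = sl j i) {S R u v : ι}
    (huv : v ≠ u) (huR : R ≠ u) (hRS : S ≠ R) (h1 : sl u v < sl u R)
    (h2 : sl u R < sl S R) : b u v < b S R := by
  have a1 := h.slot u v R huv huR h1
  have a2 := h.slot R u S huR.symm hRS (by rw [hsymm R u, hsymm R S]; exact h2)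
  rw [h.symm R u, h.symm R S] at a2
  exact a1.trans a2

/-- **Sync lemma, future.**  If `S` crosses `u` after it crosses `R`, and the crossing of
`u, v` comes after the crossing of `u` with `S`, then the crossing of `u, v` is after the key
time `b S R`. -/
lemma key_lt (h : Realises H sl d P b) (hsymm : ∀ i j, sl i j = sl j i) {S R u v : ι}
    (huv : v ≠ u) (huS : S ≠ u) (hRS : R ≠ S) (h1 : sl S R < sl u S)
    (h2 : sl u S < sl u v) : b S R < b u v := by
  have a1 := h.slot u S v huS huv h2
  have a2 := h.slot S R u hRS huS.symm (by rw [hsymm S u]; exact h1)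
  rw [h.symm S u] at a2
  exact a2.trans a1

/-- Restriction of a realisation along an injective map which respects initial heights and
the order of slots along each wire. -/
lemma comp (h : Realises H sl d P b) {ι' : Type} {β' : Type*} [LinearOrder β'] {H' : ι' → β'}
    {sl' : ι' → ι' → ℕ} (e : ι' → ι) (he : Function.Injective e)
    (hH : ∀ i j, H' j < H' i → H (e j) < H (e i))
    (hs : ∀ i j k, j ≠ i → k ≠ i → sl' i j < sl' i k → sl (e i) (e j) < sl (e i) (e k)) :
    Realises H' sl' d (fun i => P (e i)) (fun i j => b (e i) (e j)) where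
  deg i := h.deg _
  symm i j := h.symm _ _
  left i j hij x hx := h.left _ _ (hH i j hij) x hx
  right i j hij x hx := h.right _ _ (hH i j hij) x hx
  slot i j k hj hk hlt := h.slot _ _ _ (fun hc => hj (he hc)) (fun hc => hk (he hc))
    (hs i j k hj hk hlt)

end Realises

lemma natDegree_comp_CX (P : Polynomial ℝ) (δ : ℝ) {d : ℕ} (h : P.natDegree ≤ d) :
    (P.comp (Polynomial.C δ * Polynomial.X)).natDegree ≤ d := by
  refine (Polynomial.natDegree_comp_le).trans ?_
  have h1 : (Polynomial.C δ * Polynomial.X : Polynomial ℝ).natDegree ≤ 1 :=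
    (Polynomial.natDegree_C_mul_le _ _).trans Polynomial.natDegree_X_le
  calc P.natDegree * (Polynomial.C δ * Polynomial.X : Polynomial ℝ).natDegree
      ≤ P.natDegree * 1 := Nat.mul_le_mul_left _ h1
    _ ≤ d := by rw [mul_one]; exact h

lemma from_uniform {ι : Type} [Finite ι] {β : Type*} [LinearOrder β] {H : ι → β}
    (hinj : Function.Injective H) {sl : ι → ι → ℕ} {d : ℕ} (P : ι → Polynomial ℝ)
    (hP : ∀ p, (P p).natDegree ≤ d) {a b : ι → ι → ℝ} {f : ι → ℝ → ℝ}
    {upf upg : ι → ι → Prop}
    (hf : CrossData f a upf) (hfs : IsSimple f)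
    (hg : CrossData (fun p x => (P p).eval x) b upg)
    (hab : ∀ p q, H q < H p → upf p q)
    (ha : ∀ p q, p ≠ q → (sl p q : ℝ) < a p q ∧ a p q < (sl p q : ℝ) + 1)
    (hor : (∀ p, SM a b p) ∨ (∀ p, SA a b p)) :
    ∃ (P' : ι → Polynomial ℝ) (b' : ι → ι → ℝ), Realises H sl d P' b' := by
  have haL : ∀ p q r : ι, q ≠ p → r ≠ p → sl p q < sl p r → a p q < a p r := by
    intro p q r hq hr hlt
    have h1 := (ha p q hq.symm).2
    have h2 := (ha p r hr.symm).1
    have h3 : (sl p q : ℝ) + 1 ≤ (sl p r : ℝ) := by exact_mod_cast hlt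
    linarith
  have hne : ∀ {p q : ι}, H q < H p → p ≠ q := by
    intro p q h e
    rw [e] at h
    exact lt_irrefl _ h
  -- orientation of the abscissa
  obtain ⟨δ, hδ, b', up', hcd, hL, hT⟩ : ∃ δ : ℝ, (δ = 1 ∨ δ = -1) ∧
      ∃ (b' : ι → ι → ℝ) (up' : ι → ι → Prop),
      CrossData (fun p x => (P p).eval (δ * x)) b' up' ∧
      (∀ p q r : ι, q ≠ p → r ≠ p → sl p q < sl p r → b' p q < b' p r) ∧
      (∀ p q r, H q < H p → H r < H q →
        (b' p q < b' p r ∧ b' p r < b' q r) ∨ (b' q r < b' p r ∧ b' p r < b' p q)) := by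
    rcases hor with hor | hor
    · refine ⟨1, Or.inl rfl, b, upg, ?_, ?_, ?_⟩
      · simpa only [one_mul] using hg
      · intro p q r hq hr hlt
        exact hor p q r hq hr (haL p q r hq hr hlt)
      · intro p q r hpq hqr
        have n1 := hne hpq
        have n2 := hne hqr
        have n3 := hne (hqr.trans hpq)
        rcases hf.tri hfs (hab _ _ hpq) (hab _ _ hqr) (hab _ _ (hqr.trans hpq)) with
          ⟨h1, h2⟩ | ⟨h1, h2⟩
        · left
          have k1 := hor p q r n1.symm n3.symm h1
          have k2 := hor r p q n3 n2 (by rw [hf.symm r p, hf.symm r q]; exact h2)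
          rw [hg.symm r p, hg.symm r q] at k2
          exact ⟨k1, k2⟩
        · right
          have k1 := hor p r q n3.symm n1.symm h2
          have k2 := hor r q p n2 n3 (by rw [hf.symm r p, hf.symm r q]; exact h1)
          rw [hg.symm r p, hg.symm r q] at k2
          exact ⟨k2, k1⟩
    · refine ⟨-1, Or.inr rfl, fun p q => - b p q, fun p q => upg q p, ?_, ?_, ?_⟩
      · refine ⟨?_, ?_, ?_, ?_, ?_, ?_⟩
        · intro i j
          rw [hg.symm i j]
        · intro i j hij
          exact (hg.tot i j hij).symm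
        · intro i j h
          exact (hg.irr j i h).symm
        · intro i j hij
          have := hg.eq i j hij
          simpa using this
        · intro i j h x hx
          have hlt : b j i < -1 * x := by
            rw [hg.symm j i]
            linarith
          exact hg.right j i h _ hlt
        · intro i j h x hx
          have hlt : -1 * x < b j i := by
            rw [hg.symm j i]
            linarith
          exact hg.left j i h _ hlt
      · intro p q r hq hr hlt
        have := hor p q r hq hr (haL p q r hq hr hlt)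
        linarith
      · intro p q r hpq hqr
        have n1 := hne hpq
        have n2 := hne hqr
        have n3 := hne (hqr.trans hpq)
        rcases hf.tri hfs (hab _ _ hpq) (hab _ _ hqr) (hab _ _ (hqr.trans hpq)) with
          ⟨h1, h2⟩ | ⟨h1, h2⟩
        · left
          have k1 := hor p q r n1.symm n3.symm h1
          have k2 := hor r p q n3 n2 (by rw [hf.symm r p, hf.symm r q]; exact h2)
          rw [hg.symm r p, hg.symm r q] at k2
          exact ⟨by linarith, by linarith⟩
        · right
          have k1 := hor p r q n3.symm n1.symm h2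
          have k2 := hor r q p n2 n3 (by rw [hf.symm r p, hf.symm r q]; exact h1)
          rw [hg.symm r p, hg.symm r q] at k2
          exact ⟨by linarith, by linarith⟩
  -- vertical orientation
  have ev : ∀ (σ : ℝ) (p : ι) (x : ℝ), (Polynomial.C σ *
      (P p).comp (Polynomial.C δ * Polynomial.X)).eval x = σ * (P p).eval (δ * x) := by
    intro σ p x
    simp only [Polynomial.eval_mul, Polynomial.eval_C, Polynomial.eval_comp, Polynomial.eval_X]
  have dg : ∀ (σ : ℝ) (p : ι), (Polynomial.C σ *
      (P p).comp (Polynomial.C δ * Polynomial.X)).natDegree ≤ d := by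
    intro σ p
    exact (Polynomial.natDegree_C_mul_le _ _).trans (natDegree_comp_CX _ _ (hP p))
  rcases orient_all hinj hcd hT with hup | hup
  · refine ⟨fun p => Polynomial.C 1 * (P p).comp (Polynomial.C δ * Polynomial.X), b',
      dg 1, hcd.symm, ?_, ?_, hL⟩
    · intro i j hij x hx
      rw [ev, ev, one_mul, one_mul]
      exact hcd.left i j (hup i j hij) x hx
    · intro i j hij x hx
      rw [ev, ev, one_mul, one_mul]
      exact hcd.right i j (hup i j hij) x hx
  · refine ⟨fun p => Polynomial.C (-1) * (P p).comp (Polynomial.C δ * Polynomial.X), b',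
      dg (-1), hcd.symm, ?_, ?_, hL⟩
    · intro i j hij x hx
      rw [ev, ev]
      have := hcd.left j i (hup i j hij) x (by rw [hcd.symm j i]; exact hx)
      linarith
    · intro i j hij x hx
      rw [ev, ev]
      have := hcd.right j i (hup i j hij) x (by rw [hcd.symm j i]; exact hx)
      linarith

/-! ## Heights of two stacked copies and padding -/

section Stack

variable {ι : Type} [Fintype ι] {α : Type*} [LinearOrder α]

/-- rank of a wire in a state -/
noncomputable def rk (H : ℕ → ι → α) (k : ℕ) (i : ι) : ℤ :=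
  ((Finset.univ.filter (fun j => H k j < H k i)).card : ℤ)

lemma rk_nonneg (H : ℕ → ι → α) (k : ℕ) (i : ι) : 0 ≤ rk H k i := Int.natCast_nonneg _

lemma rk_lt_card (H : ℕ → ι → α) (k : ℕ) (i : ι) : rk H k i < (Fintype.card ι : ℤ) := by
  unfold rk
  have : (Finset.univ.filter (fun j => H k j < H k i)).card < (Finset.univ : Finset ι).card := by
    apply Finset.card_lt_card
    rw [Finset.ssubset_iff_of_subset (Finset.filter_subset _ _)]
    exact ⟨i, Finset.mem_univ _, by simp⟩
  exact_mod_cast this

lemma rk_lt (H : ℕ → ι → α) {k : ℕ} {i j : ι} (h : H k j < H k i) : rk H k j < rk H k i := by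
  unfold rk
  have : (Finset.univ.filter (fun x => H k x < H k j)).card <
      (Finset.univ.filter (fun x => H k x < H k i)).card := by
    apply Finset.card_lt_card
    rw [Finset.ssubset_iff_of_subset]
    · exact ⟨j, by simp [h], by simp⟩
    · intro x hx
      simp only [Finset.mem_filter, Finset.mem_univ, true_and] at hx ⊢
      exact hx.trans h
  exact_mod_cast this

lemma lt_of_rk_lt (H : ℕ → ι → α) (hinj : Function.Injective (H 0)) {i j : ι}
    (h : rk H 0 j < rk H 0 i) : H 0 j < H 0 i := by
  rcases lt_trichotomy (H 0 j) (H 0 i) with h' | h' | h'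
  · exact h'
  · have := hinj h'
    subst this
    exact absurd h (lt_irrefl _)
  · exact absurd (rk_lt H h') (by omega)

/-- heights of two stacked copies of a word and of padding wires -/
noncomputable def stk (H : ℕ → ι → α) (L e : ℕ) : (ι × Bool) ⊕ Fin e → ℕ → ℤ
  | Sum.inl (i, false), k => if k ≤ L then rk H k i else (Fintype.card ι : ℤ) - 1 - rk H 0 i
  | Sum.inl (i, true), k => if k ≤ L then rk H k i - (Fintype.card ι : ℤ)
      else 2 * (Fintype.card ι : ℤ) - 1 - rk H 0 i
  | Sum.inr r, k => if k ≤ L then -((Fintype.card ι : ℤ) + 1 + (r : ℕ))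
      else 2 * (Fintype.card ι : ℤ) + (r : ℕ)

/-- slots of two stacked copies of a word and of padding wires -/
def stkSl (sl : ι → ι → ℕ) (L e : ℕ) : (ι × Bool) ⊕ Fin e → (ι × Bool) ⊕ Fin e → ℕ
  | Sum.inl (i, c), Sum.inl (j, c') => if c = c' then sl i j else L
  | _, _ => L

lemma stkSl_symm (sl : ι → ι → ℕ) (hsymm : ∀ i j, sl i j = sl j i) (L e : ℕ)
    (x y : (ι × Bool) ⊕ Fin e) : stkSl sl L e x y = stkSl sl L e y x := by
  rcases x with ⟨i, c⟩ | r <;> rcases y with ⟨j, c'⟩ | r'
  · simp only [stkSl, hsymm i j, eq_comm (a := c)]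
  · rfl
  · rfl
  · rfl

lemma stk_ne (H : ℕ → ι → α) (hinj : Function.Injective (H 0)) (L e : ℕ)
    (x y : (ι × Bool) ⊕ Fin e) (h : x ≠ y) : stk H L e x 0 ≠ stk H L e y 0 := by
  have hrk : ∀ i j, i ≠ j → rk H 0 i ≠ rk H 0 j := by
    intro i j hij hh
    rcases lt_or_gt_of_ne (fun hc => hij (hinj hc)) with h1 | h1
    · have := rk_lt H h1; omega
    · have := rk_lt H h1; omega
  rcases x with ⟨i, c⟩ | r <;> rcases y with ⟨j, c'⟩ | r'
  · have h1 := rk_nonneg H 0 i
    have h2 := rk_lt_card H 0 i
    have h3 := rk_nonneg H 0 j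
    have h4 := rk_lt_card H 0 j
    cases c <;> cases c' <;> simp only [stk, Nat.zero_le, if_true]
    · exact hrk i j (fun hh => h (by rw [hh]))
    · omega
    · omega
    · have := hrk i j (fun hh => h (by rw [hh]))
      omega
  · have h1 := rk_nonneg H 0 i
    have h2 := rk_lt_card H 0 i
    cases c <;> simp only [stk, Nat.zero_le, if_true] <;> omega
  · have h3 := rk_nonneg H 0 j
    have h4 := rk_lt_card H 0 j
    cases c' <;> simp only [stk, Nat.zero_le, if_true] <;> omega
  · have hne : (r : ℕ) ≠ (r' : ℕ) := fun hh => h (by rw [Fin.ext hh])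
    simp only [stk, Nat.zero_le, if_true]
    omega

lemma stk_slot (H : ℕ → ι → α) (hinj : Function.Injective (H 0)) (L e : ℕ) (sl : ι → ι → ℕ)
    (hsl : ∀ i j, H 0 j < H 0 i → sl i j ≤ L ∧ (∀ k, k ≤ sl i j → H k j < H k i) ∧
      ∀ k, sl i j < k → k ≤ L → H k i < H k j)
    (x y : (ι × Bool) ⊕ Fin e) (h : stk H L e y 0 < stk H L e x 0) :
    Slot (stk H L e x) (stk H L e y) (L + 1) (stkSl sl L e x y) := by
  rcases x with ⟨i, c⟩ | r <;> rcases y with ⟨j, c'⟩ | r'
  · have h1 := rk_nonneg H 0 i
    have h2 := rk_lt_card H 0 i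
    have h3 := rk_nonneg H 0 j
    have h4 := rk_lt_card H 0 j
    by_cases hcc : c = c'
    · subst hcc
      have hh : rk H 0 j < rk H 0 i := by
        cases c <;> simp only [stk, Nat.zero_le, if_true] at h <;> omega
      obtain ⟨s1, s2, s3⟩ := hsl i j (lt_of_rk_lt H hinj hh)
      simp only [stkSl, if_true]
      refine ⟨by omega, fun k hk => ?_, fun k hk hk' => ?_⟩
      · have := rk_lt H (s2 k hk)
        have hkL : k ≤ L := hk.trans s1
        cases c <;> simp only [stk, if_pos hkL] <;> omega
      · by_cases hkL : k ≤ L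
        · have := rk_lt H (s3 k hk hkL)
          cases c <;> simp only [stk, if_pos hkL] <;> omega
        · cases c <;> simp only [stk, if_neg hkL] <;> omega
    · simp only [stkSl, if_neg hcc]
      refine ⟨le_rfl, fun k hk => ?_, fun k hk hk' => ?_⟩
      · have k1 := rk_nonneg H k i
        have k2 := rk_lt_card H k i
        have k3 := rk_nonneg H k j
        have k4 := rk_lt_card H k j
        cases c <;> cases c' <;> simp only [stk, Nat.zero_le, if_true, if_pos hk] at h ⊢
        · exact absurd rfl hcc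
        · omega
        · omega
        · exact absurd rfl hcc
      · have hkL : ¬ k ≤ L := by omega
        cases c <;> cases c' <;> simp only [stk, Nat.zero_le, if_true, if_neg hkL] at h ⊢
        · exact absurd rfl hcc
        · omega
        · omega
        · exact absurd rfl hcc
  · have h1 := rk_nonneg H 0 i
    have h2 := rk_lt_card H 0 i
    simp only [stkSl]
    refine ⟨le_rfl, fun k hk => ?_, fun k hk hk' => ?_⟩
    · have k1 := rk_nonneg H k i
      have k2 := rk_lt_card H k i
      cases c <;> simp only [stk, if_pos hk] <;> omega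
    · have hkL : ¬ k ≤ L := by omega
      cases c <;> simp only [stk, if_neg hkL] <;> omega
  · exfalso
    have h3 := rk_nonneg H 0 j
    have h4 := rk_lt_card H 0 j
    cases c' <;> simp only [stk, Nat.zero_le, if_true] at h <;> omega
  · simp only [stk, Nat.zero_le, if_true] at h
    simp only [stkSl]
    refine ⟨le_rfl, fun k hk => ?_, fun k hk hk' => ?_⟩
    · simp only [stk, if_pos hk]; omega
    · have hkL : ¬ k ≤ L := by omega
      simp only [stk, if_neg hkL]; omega

end Stack

/-! ## The theorem -/

/-- **Realisation of a word.**  States `k = 0, ..., L` with orders `H k`; every pair switches at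
most once, `sl i j` is the last state before the switch (`sl i j = L`: no switch).  If every
simple arrangement of `n ≥ 2 |ι|` pseudolines is `d`-stretchable, there are polynomials of degree
at most `d` whose crossings are ordered along every wire as the word prescribes. -/
theorem realise {ι : Type} [Fintype ι] {α : Type*} [LinearOrder α] (L : ℕ) (H : ℕ → ι → α)
    (hinj : Function.Injective (H 0)) (sl : ι → ι → ℕ) (hsymm : ∀ i j, sl i j = sl j i)
    (hsl : ∀ i j, H 0 j < H 0 i → sl i j ≤ L ∧ (∀ k, k ≤ sl i j → H k j < H k i) ∧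
      ∀ k, sl i j < k → k ≤ L → H k i < H k j)
    {n d : ℕ} (hn : 2 * Fintype.card ι ≤ n)
    (h : ∀ f : Fin n → ℝ → ℝ, IsArrangement f → IsSimple f → Stretchable d f) :
    ∃ (P : ι → Polynomial ℝ) (b : ι → ι → ℝ), Realises (H 0) sl d P b := by
  classical
  obtain ⟨e, rfl⟩ : ∃ e, n = 2 * Fintype.card ι + e := ⟨n - 2 * Fintype.card ι, by omega⟩
  have hA := stk_slot H hinj L e sl hsl
  have hne := stk_ne H hinj L e
  obtain ⟨s, hs, harr, hsimp⟩ := exists_modl hA hne
  have eqv : (ι × Bool) ⊕ Fin e ≃ Fin (2 * Fintype.card ι + e) := Fintype.equivOfCardEq (by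
    simp only [Fintype.card_sum, Fintype.card_prod, Fintype.card_bool, Fintype.card_fin]
    ring)
  obtain ⟨P, hPd, hParr, hh, σ, hhσ⟩ := h (fun j => modl (stk H L e) (L + 1) s (eqv.symm j))
    ⟨fun i => harr.cont _, fun i j hij => harr.cross _ _ (fun hc => hij (eqv.symm.injective hc))⟩
    (fun i j k hij hjk hik => hsimp _ _ _ (fun hc => hij (eqv.symm.injective hc))
      (fun hc => hjk (eqv.symm.injective hc)) (fun hc => hik (eqv.symm.injective hc)))
  let ρ : (ι × Bool) ⊕ Fin e → Fin (2 * Fintype.card ι + e) := fun i => σ (eqv i)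
  have hρ : Function.Injective ρ := fun i j hij => eqv.injective (σ.injective hij)
  have hgarr : IsArrangement (fun (i : (ι × Bool) ⊕ Fin e) x => (P (ρ i)).eval x) :=
    ⟨fun i => hParr.cont _, fun i j hij => hParr.cross _ _ (fun hc => hij (hρ hc))⟩
  have hcurve : ∀ i : (ι × Bool) ⊕ Fin e, hh '' curve (modl (stk H L e) (L + 1) s i) =
      curve (fun x => (P (ρ i)).eval x) := by
    intro i
    have := hhσ (eqv i)
    simp only [Equiv.symm_apply_apply] at this
    exact this
  obtain ⟨a, upf, hf⟩ := exists_crossData harr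
  obtain ⟨b, upg, hg⟩ := exists_crossData hgarr
  have hsm : ∀ i, SM a b i ∨ SA a b i := mono_or_anti hf hg harr.cont hh hcurve
  obtain ⟨hup, hsl'⟩ := modl_facts hA hne (stkSl_symm sl hsymm L e) s hs hf
  have hblocks := two_blocks hf hg hsimp hsm (fun i => ∃ p, i = Sum.inl (p, false))
    (fun i => ∃ p, i = Sum.inl (p, true)) (by
      rintro i j ⟨p, rfl⟩ ⟨q, rfl⟩
      apply hup
      have h1 := rk_nonneg H 0 p
      have h4 := rk_lt_card H 0 q
      simp only [stk, Nat.zero_le, if_true]
      omega)
  -- restriction to one copy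
  have hrestr : ∀ c : Bool, ((∀ p, SM a b (Sum.inl (p, c))) ∨ (∀ p, SA a b (Sum.inl (p, c)))) →
      ∃ (P : ι → Polynomial ℝ) (b : ι → ι → ℝ), Realises (H 0) sl d P b := by
    intro c hc
    have hinj' : ∀ p q : ι, p ≠ q → (Sum.inl (p, c) : (ι × Bool) ⊕ Fin e) ≠ Sum.inl (q, c) := by
      intro p q hpq
      simp only [ne_eq, Sum.inl.injEq, Prod.mk.injEq, and_true]
      exact hpq
    refine from_uniform hinj (fun p : ι => P (ρ (Sum.inl (p, c)))) (fun p => hPd _)
      (a := fun p q => a (Sum.inl (p, c)) (Sum.inl (q, c)))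
      (b := fun p q => b (Sum.inl (p, c)) (Sum.inl (q, c)))
      (f := fun p => modl (stk H L e) (L + 1) s (Sum.inl (p, c)))
      (upf := fun p q => upf (Sum.inl (p, c)) (Sum.inl (q, c)))
      (upg := fun p q => upg (Sum.inl (p, c)) (Sum.inl (q, c)))
      ⟨fun p q => hf.symm _ _, fun p q hpq => hf.tot _ _ (hinj' p q hpq),
        fun p q hpq h' => hf.irr _ _ hpq (by rw [h']), fun p q hpq => hf.eq _ _ (hinj' p q hpq),
        fun p q hpq => hf.left _ _ hpq, fun p q hpq => hf.right _ _ hpq⟩
      (fun p q r hpq hqr hpr => hsimp _ _ _ (hinj' p q hpq) (hinj' q r hqr) (hinj' p r hpr))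
      ⟨fun p q => hg.symm _ _, fun p q hpq => hg.tot _ _ (hinj' p q hpq),
        fun p q hpq h' => hg.irr _ _ hpq (by rw [h']), fun p q hpq => hg.eq _ _ (hinj' p q hpq),
        fun p q hpq => hg.left _ _ hpq, fun p q hpq => hg.right _ _ hpq⟩
      (fun p q hpq => hup _ _ ?_)
      (fun p q hpq => ?_) ?_
    · have := rk_lt H hpq
      cases c <;> simp only [stk, Nat.zero_le, if_true] <;> omega
    · have := hsl' _ _ (hinj' p q hpq)
      simpa only [stkSl, if_true] using this
    rcases hc with hc | hc
    · left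
      intro p q r hq hr hlt
      exact hc p _ _ (hinj' q p hq) (hinj' r p hr) hlt
    · right
      intro p q r hq hr hlt
      exact hc p _ _ (hinj' q p hq) (hinj' r p hr) hlt
  rcases hblocks with hb | hb
  · exact hrestr false (hb.imp (fun h p => h _ ⟨p, rfl⟩) (fun h p => h _ ⟨p, rfl⟩))
  · exact hrestr true (hb.imp (fun h p => h _ ⟨p, rfl⟩) (fun h p => h _ ⟨p, rfl⟩))

end W_be22_h73
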